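import Pool.Agent.Helper24.FF.Stmts

/-! Full list for MP_866009_co, part F: `ST_WSM`. -/

set_option autoImplicit false

namespace Pool.Agent.Helper24.FF

open Pool.Agent.Helper64.CT Pool.Agent.Helper64.DT Pool.Agent.Helper64.FL
open Pool.Agent.Helper64.HG (Ovl Model Circ IC HellyCircle ChordModel)

theorem wsm_first {V : Type} (p : V → Prop) : ∀ M : List V, (∃ x ∈ M, p x) →
    ∃ A c B, M = A ++ c :: B ∧ p c ∧ ∀ x ∈ A, ¬ p x := by
  intro M
  induction M with
  | nil =>
    rintro ⟨x, hx, -⟩
    exact (List.not_mem_nil hx).elim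
  | cons a M ih =>
    intro h
    by_cases ha : p a
    · exact ⟨[], a, M, rfl, ha, fun x hx => (List.not_mem_nil hx).elim⟩
    · have h' : ∃ x ∈ M, p x := by
        obtain ⟨x, hx, hp⟩ := h
        rcases List.mem_cons.1 hx with e | hx
        · exact (ha (e ▸ hp)).elim
        · exact ⟨x, hx, hp⟩
      obtain ⟨A, c, B, h1, h2, h3⟩ := ih h'
      refine ⟨a :: A, c, B, by rw [h1]; rfl, h2, ?_⟩
      intro x hx
      rcases List.mem_cons.1 hx with e | hx
      · exact e ▸ ha
      · exact h3 x hx

theorem st_WSM (hWSR : ST_WSR) (hWCY : ST_WCY) (hWRO : ST_WRO) (hPE1 : ST_PE1) : ST_WSM := by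
  intro V G h r M hDF hR hr hM h3
  by_cases hno : ∀ y ∈ r :: M, ¬ G.Adj h y
  · obtain ⟨a, b, hcm, -⟩ := hWCY V G r M hR
    refine hPE1 V G (LS (r :: M)) h ⟨a, b, hcm⟩ ?_ ?_
    · intro hh
      rcases List.mem_cons.1 hh with e | e
      · exact hr e
      · exact hM e
    · intro y hy _ _ h1
      exact (hno y hy h1).elim
  · obtain ⟨l, hl⟩ : ∃ l, M.getLast? = some l := by
      rcases hMe : M.getLast? with _ | l
      · have := hR.len
        rw [List.getLast?_eq_none_iff.1 hMe] at this
        simp at this
      · exact ⟨l, rfl⟩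
    have hlM : l ∈ M := List.mem_of_getLast? hl
    by_cases hB : G.Adj h r ∧ ¬ G.Adj h l
    · exact hWSR V G h r l M hDF hR hr hM hB.1 hl hB.2 h3
    · have hex : ∃ x ∈ M, G.Adj h x := by
        by_cases h1 : G.Adj h r
        · exact ⟨l, hlM, by by_contra h2; exact hB ⟨h1, h2⟩⟩
        · push Not at hno
          obtain ⟨y, hy, h2⟩ := hno
          rcases List.mem_cons.1 hy with e | e
          · exact (h1 (e ▸ h2)).elim
          · exact ⟨y, e, h2⟩
      obtain ⟨A, c, B, rfl, hc, hA⟩ := wsm_first (fun x => G.Adj h x) M hex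
      have hA0 : A = [] → ¬ G.Adj h r := by
        rintro rfl h1
        have h2 : G.Adj h l := by by_contra h2; exact hB ⟨h1, h2⟩
        rw [List.nil_append] at hR hl hlM
        have hrl : G.Adj r l := (hR.adj l hlM).2 (Or.inr hl)
        have hrc : G.Adj r c := (hR.adj c List.mem_cons_self).2 (Or.inl rfl)
        have hB0 : B ≠ [] := by
          rintro rfl
          have := hR.len
          simp at this
        have hlB : l ∈ B := by
          rw [List.getLast?_cons_of_ne_nil hB0] at hl
          exact List.mem_of_getLast? hl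
        have hcl : c ≠ l := hR.ip.1 l hlB
        have hlc : G.Adj l c := hDF h r l c h1 h2 hrl hc hrc hcl.symm
        exact (hWRO V G r).2 (c :: B) hR l r c (List.mem_cons_of_mem _ hlM) List.mem_cons_self
          (List.mem_cons_of_mem _ List.mem_cons_self) ⟨hrl.symm, hrc, hlc⟩
      have hmem : ∀ x, x ∈ c :: (B ++ r :: A) ↔ x ∈ r :: (A ++ c :: B) := by
        intro x
        simp only [List.mem_cons, List.mem_append]
        tauto
      have hset : LS (c :: (B ++ r :: A)) = LS (r :: (A ++ c :: B)) := by
        ext x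
        exact hmem x
      obtain ⟨l', hl', hnl⟩ : ∃ l', (B ++ r :: A).getLast? = some l' ∧ ¬ G.Adj h l' := by
        rcases List.eq_nil_or_concat A with e | ⟨A', z, e⟩
        · subst e
          exact ⟨r, by rw [List.getLast?_append]; rfl, hA0 rfl⟩
        · refine ⟨z, ?_, hA z (by rw [e]; simp)⟩
          rw [e, List.getLast?_append, List.concat_eq_append, ← List.cons_append,
            List.getLast?_append]
          simp
      have h5 : h ≠ c := by
        rintro rfl
        exact hM (by simp)
      have h6 : h ∉ B ++ r :: A := by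
        intro hh
        have := (hmem h).1 (List.mem_cons_of_mem _ hh)
        rcases List.mem_cons.1 this with e | e
        · exact hr e
        · exact hM e
      have h7 := hWSR V G h c l' (B ++ r :: A) hDF ((hWRO V G r).1 c A B hR) h5 h6 hc hl' hnl
        (by
          rintro ⟨x, hx, y, hy, z, hz, hrest⟩
          exact h3 ⟨x, (hmem x).1 hx, y, (hmem y).1 hy, z, (hmem z).1 hz, hrest⟩)
      rw [hset] at h7
      exact h7

end Pool.Agent.Helper24.FF
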